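import Mathlib
import Pool.Agent.H524R3.Defs
import Pool.Agent.H524R3.LinkDefs
import Pool.Agent.H524R3.LinkNoExp
import Pool.Agent.H524R3.LinkAsym

set_option autoImplicit false

open H524R3 Filter Topology

namespace Pool.Agent.Results.MP_af5d62_gt.LinkExpansionFails

/-- The asymptotic expansion conjecture for framed links fails for K = SU(2), X the Hantzsche-Wendt manifold
(surgery on the plumbing link of hwTree) and L the unknot of framing 0 in a ball in X, for every integer
k₀ ≥ 1 and every label lam ∈ {0, ..., k₀}: for all choices of phases ω s of absolute value 1 (in particular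
in every 2-framing of X) the sequence s ↦ ω s * Z^(k)(X, L, s lam), k = s k₀ (level k, the component L
being coloured by the module of dimension s lam + 1), has no expansion of the conjectured form. -/
theorem result (k₀ lam : ℕ) (hk : 1 ≤ k₀) (hlam : lam ≤ k₀) (ω : ℕ → ℂ) (hω : ∀ s, ‖ω s‖ = 1) :
    ¬ HasLinkExpansion 2 k₀ (fun s => ω s * hwTree.wrtUnknot (s * k₀ + 2) (s * lam + 1)) := by
  obtain ⟨t, C, h1, h2⟩ := link_growth k₀ lam hk hlam
  refine not_hasLinkExpansion 2 k₀ hk t _ C ?_ ?_
  · filter_upwards [h1] with s hs
    rw [norm_mul, hω, one_mul]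
    exact hs
  · refine h2.congr fun s => ?_
    rw [norm_mul, hω, one_mul]

end Pool.Agent.Results.MP_af5d62_gt.LinkExpansionFails
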